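import Mathlib
import Pool.Agent.Lib.helper23.Rec

namespace Pool.Agent.H.MP_417230_al

open Filter Topology Set

variable {G H : Type} [AddCommGroup G] [AddCommGroup H]

structure GF (P : Filter G) : Prop where
  zero : pure 0 ≤ P
  sub : Tendsto (fun p : G × G => p.1 - p.2) (P ×ˢ P) P

namespace GF

variable {P Q : Filter G}

lemma half (h : GF P) {A : Set G} (hA : A ∈ P) : ∃ B ∈ P, ∀ x ∈ B, ∀ y ∈ B, x - y ∈ A := by
  obtain ⟨B, h1, h2⟩ := mem_prod_self_iff.1 (h.sub hA)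
  exact ⟨B, h1, fun x hx y hy => h2 (mk_mem_prod hx hy)⟩

lemma tz {α : Type} (h : GF P) (F : Filter α) : Tendsto (fun _ => (0 : G)) F P :=
  tendsto_const_pure.mono_right h.zero

lemma tsub {α : Type} (h : GF P) {F : Filter α} {f g : α → G} (hf : Tendsto f F P)
    (hg : Tendsto g F P) : Tendsto (fun a => f a - g a) F P := h.sub.comp (hf.prodMk hg)

lemma tadd {α : Type} (h : GF P) {F : Filter α} {f g : α → G} (hf : Tendsto f F P)
    (hg : Tendsto g F P) : Tendsto (fun a => f a + g a) F P := by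
  simpa using h.tsub hf (h.tsub (h.tz F) hg)

lemma hadd (h : GF P) {A : Set G} (hA : A ∈ P) : ∃ B ∈ P, ∀ x ∈ B, ∀ y ∈ B, x + y ∈ A := by
  obtain ⟨B, h1, h2⟩ := mem_prod_self_iff.1 (h.tadd tendsto_fst tendsto_snd hA)
  exact ⟨B, h1, fun x hx y hy => h2 (mk_mem_prod hx hy)⟩

lemma zs (h : GF P) (b : ℤ) : Tendsto (fun x => b • x) P P := by
  induction b with
  | zero => simpa using h.tz P
  | succ n ih => simpa [add_smul] using h.tadd ih tendsto_id
  | pred n ih => simpa [sub_smul] using h.tsub ih tendsto_id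

lemma map (h : GF P) (f : G →+ H) : GF (map f P) :=
  ⟨by simpa using map_mono (m := f) h.zero, by
    rw [prod_map_map_eq, tendsto_map'_iff]
    exact (tendsto_map.comp h.sub).congr fun p => map_sub f _ _⟩

lemma comap {Q : Filter H} (h : GF Q) (f : G →+ H) : GF (comap f Q) :=
  ⟨map_le_iff_le_comap.1 (by simpa using h.zero), tendsto_comap_iff.2
    ((h.tsub (tendsto_comap.comp tendsto_fst) (tendsto_comap.comp tendsto_snd)).congr
      fun p => (map_sub f _ _).symm)⟩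

lemma iInf {ι : Type} {P : ι → Filter G} (h : ∀ i, GF (P i)) : GF (⨅ i, P i) :=
  ⟨le_iInf fun i => (h i).zero, tendsto_iInf.2 fun i =>
    (h i).sub.mono_left (prod_mono (iInf_le _ i) (iInf_le _ i))⟩

lemma inf (h : GF P) (h' : GF Q) : GF (P ⊓ Q) :=
  ⟨le_inf h.zero h'.zero, tendsto_inf.2 ⟨h.sub.mono_left (prod_mono inf_le_left inf_le_left),
    h'.sub.mono_left (prod_mono inf_le_right inf_le_right)⟩⟩

lemma nhds [TopologicalSpace G] [IsTopologicalAddGroup G] : GF (𝓝 (0 : G)) :=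
  ⟨pure_le_nhds _, by
    rw [← nhds_prod_eq]
    exact continuous_sub.tendsto' _ _ (sub_zero _)⟩

lemma seq {ι : Type} {V : ι → Set G} (h0 : ∀ n, 0 ∈ V n)
    (h : ∀ n, ∃ m, ∀ x ∈ V m, ∀ y ∈ V m, x - y ∈ V n) : GF (⨅ n, 𝓟 (V n)) :=
  ⟨le_iInf fun n => le_principal_iff.2 (h0 n), tendsto_iInf.2 fun n => by
    obtain ⟨m, hm⟩ := h n
    have := mem_iInf_of_mem (f := fun n => 𝓟 (V n)) m (mem_principal_self _)
    exact tendsto_principal.2 (mem_of_superset (prod_mem_prod this this) fun p hp =>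
      hm _ hp.1 _ hp.2)⟩

lemma chain (h : GF P) {A : Set G} (hA : A ∈ P) : ∃ V : ℕ → Set G, V 0 = A ∧ (∀ n, V n ∈ P) ∧
    ∀ n, ∀ x ∈ V (n + 1), ∀ y ∈ V (n + 1), x - y ∈ V n := by
  choose! nx h1 h2 using fun V (hV : V ∈ P) => h.half hV
  have this (n) : nx^[n] A ∈ P := by
    induction n with
    | zero => exact hA
    | succ n ih => exact Function.iterate_succ_apply' nx n A ▸ h1 _ ih
  exact ⟨fun n => nx^[n] A, rfl, this, fun n => by
    simp only [Function.iterate_succ_apply']; exact h2 _ (this n)⟩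

end GF

def pl (P Q : Filter G) : Filter G := map (fun p : G × G => p.1 + p.2) (P ×ˢ Q)

lemma mem_pl {P Q : Filter G} {A : Set G} :
    A ∈ pl P Q ↔ ∃ U ∈ P, ∃ B ∈ Q, ∀ u ∈ U, ∀ b ∈ B, u + b ∈ A :=
  mem_prod_iff.trans (by simp [prod_subset_iff])

lemma GF.pl {P Q : Filter G} (h : GF P) (h' : GF Q) : GF (pl P Q) :=
  ⟨fun A hA => by
    obtain ⟨U, h1, B, h2, h3⟩ := mem_pl.1 hA
    simpa using h3 0 (h.zero h1) 0 (h'.zero h2), by
    rw [MP_417230_al.pl, prod_map_map_eq, tendsto_map'_iff]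
    exact (tendsto_map.comp
      ((h.tsub (tendsto_fst.comp tendsto_fst) (tendsto_fst.comp tendsto_snd)).prodMk
        (h'.tsub (tendsto_snd.comp tendsto_fst) (tendsto_snd.comp tendsto_snd)))).congr
      fun p => by simp only [Function.comp_apply]; abel⟩

lemma le_pl {P Q : Filter G} (h' : GF Q) : P ≤ pl P Q := fun A hA => by
  obtain ⟨U, h1, B, h2, h3⟩ := mem_pl.1 hA
  exact mem_of_superset h1 fun u hu => by simpa using h3 u hu 0 (h'.zero h2)

lemma le_pl' {P Q : Filter G} (h : GF P) : Q ≤ pl P Q := fun A hA => by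
  obtain ⟨U, h1, B, h2, h3⟩ := mem_pl.1 hA
  exact mem_of_superset h2 fun u hu => by simpa using h3 0 (h.zero h1) u hu

def sm (e : ℤ) (V : Filter G) : Filter G := map (fun x => e • x) V

lemma GF.sm {V : Filter G} (h : GF V) (e : ℤ) : GF (sm e V) := h.map (zsmulAddGroupHom e)

lemma sm_le {V : Filter G} (h : GF V) {e e' : ℤ} (he : e ∣ e') : sm e' V ≤ sm e V := by
  obtain ⟨q, rfl⟩ := he
  exact (tendsto_map.comp (h.zs q)).congr fun x => (mul_smul _ _ _).symm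

def Cov (V : Filter G) (b : ℤ) (Q : Set G) : Prop :=
  ∃ Φ : Set G, Φ.Finite ∧ ∀ᶠ x in V, ∃ f ∈ Φ, b • x - f ∈ Q

def Tight (N V : Filter G) (e : ℤ) : Prop := ∃ Q ∈ pl N (sm e V), ∀ b, Cov V b Q → e ∣ b

variable {N V : Filter G}

lemma Cov.mono {b : ℤ} {Q Q' : Set G} (h : Cov V b Q) (h' : Q ⊆ Q') : Cov V b Q' :=
  h.imp fun _ h => ⟨h.1, h.2.mono fun _ hx => hx.imp fun _ h => ⟨h.1, h' h.2⟩⟩

lemma Cov.mul (hV : GF V) {b : ℤ} {Q : Set G} (h : Cov V b Q) (q : ℤ) : Cov V (b * q) Q :=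
  h.imp fun _ h => ⟨h.1, by simpa [mul_smul] using (hV.zs q).eventually h.2⟩

lemma Cov.sub {b b' : ℤ} {Q Q' : Set G} (h : Cov V b Q) (h' : Cov V b' Q)
    (hQ : ∀ x ∈ Q, ∀ y ∈ Q, x - y ∈ Q') : Cov V (b - b') Q' := by
  obtain ⟨Φ, h1, h2⟩ := h
  obtain ⟨Ψ, h3, h4⟩ := h'
  refine ⟨_, h1.image2 (· - ·) h3, ?_⟩
  filter_upwards [h2, h4] with x ⟨f, a1, a2⟩ ⟨g, a3, a4⟩
  refine ⟨_, mem_image2_of_mem a1 a3, ?_⟩
  convert hQ _ a2 _ a4 using 1
  rw [sub_smul]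
  abel

lemma cov_self (hN : GF N) {e : ℤ} {Q : Set G} (h : Q ∈ pl N (sm e V)) : Cov V e Q :=
  ⟨{0}, finite_singleton _, mem_of_superset (mem_map.1 (le_pl' hN h)) fun _ hx =>
    ⟨0, rfl, by simpa using hx⟩⟩

lemma Cov.trans {e : ℤ} {Q Q' U : Set G} (h : Cov V e Q) (hU : U ∈ N)
    (hQ : ∀ u ∈ U, ∀ q ∈ Q, u + q ∈ Q') : ∃ R ∈ pl N (sm e V), ∀ b, Cov V b R → Cov V b Q' := by
  obtain ⟨Ψ, h1, h2⟩ := h
  refine ⟨{z | ∃ u ∈ U, ∃ g ∈ Ψ, z - u - g ∈ Q}, mem_pl.2 ⟨U, hU, {y | ∃ g ∈ Ψ, y - g ∈ Q}, h2,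
    fun u hu y ⟨g, a1, a2⟩ => ⟨u, hu, g, a1, by simpa using a2⟩⟩, fun b ⟨Φ, h3, h4⟩ =>
    ⟨_, h3.image2 (· + ·) h1, h4.mono fun x ⟨f, a1, u, a2, g, a3, a4⟩ =>
      ⟨_, mem_image2_of_mem a1 a3, ?_⟩⟩⟩
  convert hQ _ a2 _ a4 using 1
  abel

lemma Tight.lcm (hV : GF V) {e e' : ℤ} (h : Tight N V e) (h' : Tight N V e') :
    Tight N V (lcm e e') := by
  obtain ⟨Q, h1, h2⟩ := h
  obtain ⟨Q', h3, h4⟩ := h'
  exact ⟨Q ∩ Q', inter_mem (map_mono (prod_mono le_rfl (sm_le hV (dvd_lcm_left _ _))) h1)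
    (map_mono (prod_mono le_rfl (sm_le hV (dvd_lcm_right _ _))) h3), fun b hb =>
    lcm_dvd (h2 b (hb.mono inter_subset_left)) (h4 b (hb.mono inter_subset_right))⟩

theorem exists_tight (hN : GF N) (hV : GF V) {U : Set G} (hU : U ∈ N) :
    ∃ e, Tight N V e ∧ Cov V e U := by
  by_cases h0 : Tight N V 0
  · exact ⟨0, h0, {0}, finite_singleton _, by simpa using Eventually.of_forall fun _ => hN.zero hU⟩
  obtain ⟨U', u1, u2⟩ := hN.hadd hU
  obtain ⟨a, h1, h2⟩ : ∃ a, Cov V a U' ∧ a ≠ 0 := by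
    by_contra! h
    exact h0 ⟨U', mem_pl.2 ⟨U', u1, {0}, by simp [sm], by simp⟩, fun b hb => h b hb ▸ dvd_rfl⟩
  have hM := hN.pl (hV.sm a)
  let I : AddSubgroup ℤ := AddSubgroup.ofSub {b | ∀ Q ∈ pl N (sm a V), Cov V b Q}
    ⟨a, fun Q hQ => cov_self hN hQ⟩ fun b hb b' hb' Q hQ => by
      obtain ⟨Q', q1, q2⟩ := hM.half hQ
      simpa [sub_eq_add_neg] using (hb Q' q1).sub (hb' Q' q1) q2
  obtain ⟨e, he⟩ := Int.subgroup_cyclic I
  have h3 (b : ℤ) : (∀ Q ∈ pl N (sm a V), Cov V b Q) ↔ e ∣ b := by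
    change b ∈ I ↔ _
    rw [he, AddSubgroup.mem_closure_singleton]
    exact ⟨fun ⟨n, h⟩ => ⟨n, by rw [← h, smul_eq_mul, mul_comm]⟩,
      fun ⟨n, h⟩ => ⟨n, by rw [h, smul_eq_mul, mul_comm]⟩⟩
  have h4 (r : ℤ) : ∃ Q ∈ pl N (sm a V), ∀ b, b % a = r → Cov V b Q → e ∣ b := by
    by_cases hr : e ∣ r
    · exact ⟨univ, univ_mem, fun b hb _ => by
        rw [← Int.emod_add_mul_ediv b a, hb]
        exact hr.add (((h3 a).1 fun Q hQ => cov_self hN hQ).mul_right _)⟩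
    obtain ⟨Q, q1, q2⟩ : ∃ Q ∈ pl N (sm a V), ¬ Cov V r Q := by
      by_contra! h
      exact hr ((h3 r).1 h)
    obtain ⟨Q', q3, q4⟩ := hM.half q1
    exact ⟨Q', q3, fun b hb h => (q2 (by
      rw [← hb, Int.emod_def]
      exact h.sub ((cov_self hN q3).mul hV _) q4)).elim⟩
  choose Q q1 q2 using h4
  obtain ⟨Q', q3, q4⟩ := hM.hadd ((biInter_mem (finite_Icc 0 |a|)).2 fun r _ => q1 r)
  obtain ⟨R, r1, r2⟩ := ((h3 e).2 dvd_rfl Q' q3).trans (le_pl (hV.sm a) q3) q4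
  obtain ⟨R', r3, r4⟩ := h1.trans u1 u2
  exact ⟨e, ⟨R, r1, fun b hb => q2 _ b rfl ((r2 b hb).mono (biInter_subset_of_mem
    ⟨Int.emod_nonneg _ h2, (Int.emod_lt_abs _ h2).le⟩))⟩, r4 e ((h3 e).2 dvd_rfl R' r3)⟩

theorem generic (hV : GF V) {ι : Type} (b : ι → ℤ) (Q Q' : ι → Set G) (s : Set ι) (hs : s.Finite)
    (h : ∀ i ∈ s, ¬ Cov V (b i) (Q i) ∧ ∀ x ∈ Q' i, ∀ y ∈ Q' i, x - y ∈ Q i) :
    ∃ W : Ultrafilter G, ↑W ≤ V ∧ ∀ i ∈ s, ∀ f, ∀ᶠ x in W, b i • x - f ∉ Q' i := by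
  induction s, hs using Set.Finite.induction_on with
  | empty => exact ⟨pure 0, hV.zero, by simp⟩
  | @insert a s _ _ ih =>
    obtain ⟨W, w1, w2⟩ := ih fun i hi => h i (Or.inr hi)
    obtain ⟨h1, h2⟩ := h a (Or.inl rfl)
    have : (V ⊓ ⨅ f, 𝓟 {x | b a • x - f ∉ Q a}).NeBot :=
      (V.basis_sets.inf_basis_neBot_iff (hasBasis_iInf_principal_finite _)).2
        fun A hA Φ hΦ => by_contra fun hn => h1 ⟨Φ, hΦ, mem_of_superset hA fun x hx => by
          by_contra! h3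
          exact hn ⟨x, hx, by simpa using h3⟩⟩
    obtain ⟨Y, hY⟩ := Ultrafilter.exists_le (V ⊓ ⨅ f, 𝓟 {x | b a • x - f ∉ Q a})
    have e (p : G → Prop) : (∀ᶠ z in ↑(Y.bind fun y => W.map fun x => x - y), p z) ↔
        ∀ᶠ y in Y, ∀ᶠ x in W, p (x - y) := Iff.rfl
    refine ⟨Y.bind fun y => W.map fun x => x - y, fun A hA => (e _).2 ?_, ?_⟩
    · obtain ⟨B, h3, h4⟩ := hV.half hA
      filter_upwards [hY.trans inf_le_left h3] with y hy
      filter_upwards [w1 h3] with x hx using h4 _ hx _ hy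
    rintro i (rfl | hi) f
    · rw [e]
      by_contra h3
      simp only [← Ultrafilter.eventually_not, not_not] at h3
      obtain ⟨y₀, h4⟩ := h3.exists
      obtain ⟨y, h5, h6⟩ := (h3.and (le_principal_iff.1
        ((hY.trans inf_le_right).trans (iInf_le _ (b i • y₀))))).exists
      obtain ⟨x, h7, h8⟩ := (h4.and h5).exists
      refine h6 ?_
      convert h2 _ h7 _ h8 using 1
      simp only [smul_sub]
      abel
    · refine (e _).2 (Eventually.of_forall fun y => (w2 i hi (f + b i • y)).mono fun x hx => ?_)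
      convert hx using 2
      rw [smul_sub]
      abel

abbrev FF : Type := ℕ →₀ ℤ

noncomputable abbrev lc (w : ℕ → G) : FF →ₗ[ℤ] G := Finsupp.linearCombination ℤ w

def Om (n : ℕ) (c : FF) : Prop := ∀ j, |c j| ≤ 4 ^ j ∧ (j < n → c j = 0)

def Sm (n : ℕ) (c : FF) : Prop := ∀ j, |c j| ≤ j ∧ (j < n → c j = 0)

def SS (m : ℕ) (c : FF) : Prop := ∀ j, m * |c j| ≤ j

lemma le_four (j : ℕ) : (j : ℤ) ≤ 4 ^ j := by exact_mod_cast (Nat.lt_pow_self (by norm_num)).le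

lemma SS.zero {m j : ℕ} {c : FF} (h : SS m c) (hj : j < m) : c j = 0 := by
  by_contra h1
  have := Int.one_le_abs h1
  have h2 : (j : ℤ) < m := by exact_mod_cast hj
  nlinarith [h j]

lemma SS.mono {m n : ℕ} {c : FF} (h : SS m c) (hn : n ≤ m) : SS n c := fun j =>
  (mul_le_mul_of_nonneg_right (by exact_mod_cast hn) (abs_nonneg _)).trans (h j)

lemma SS.sm {m n : ℕ} {c : FF} (h : SS m c) (hn : n < m) : Sm n c := fun j =>
  ⟨by simpa using h.mono (Nat.one_le_of_lt hn) j, fun hj => h.zero (hj.trans hn)⟩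

lemma SS.sub {m : ℕ} {c d : FF} (h : SS (2 * m) c) (h' : SS (2 * m) d) : SS m (c - d) := fun j => by
  have h1 := h j
  have h2 := h' j
  push_cast at h1 h2
  rw [Finsupp.sub_apply]
  nlinarith [abs_sub (c j) (d j), Int.natCast_nonneg m]

lemma bdd (c : FF) : ∃ k, ∀ j ≥ k, c j = 0 := by
  obtain ⟨k, hk⟩ := c.support.bddAbove
  exact ⟨k + 1, fun j hj => by_contra fun h =>
    absurd (hk (Finsupp.mem_support_iff.2 h)) (not_le.2 hj)⟩

lemma box (n : ℕ) : {c : FF | ∀ j, |c j| ≤ j ∧ (n ≤ j → c j = 0)}.Finite := by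
  refine Finite.of_finite_image (f := fun c (i : Fin n) => c i)
    ((Finite.pi' fun i : Fin n => finite_Icc (-(i : ℕ) : ℤ) (i : ℕ)).subset ?_) fun c hc d hd h => ?_
  · rintro _ ⟨c, hc, rfl⟩ i
    exact abs_le.1 (hc i).1
  · ext j
    by_cases hj : j < n
    exacts [congrFun h ⟨j, hj⟩, ((hc j).2 (not_lt.1 hj)).trans ((hd j).2 (not_lt.1 hj)).symm]

theorem exists_seq (hN : GF N) {Vn : ℕ → Set G} (h0 : ∀ n, 0 ∈ Vn n)
    (h1 : ∀ n, ∀ x ∈ Vn (n + 1), ∀ y ∈ Vn (n + 1), x - y ∈ Vn n) (hVn : V = ⨅ n, 𝓟 (Vn n)) :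
    ∃ w : ℕ → G, (∀ A ∈ V, ∃ n, ∀ c, Om n c → lc w c ∈ A) ∧
      ∀ e, Tight N V e → ∃ U ∈ N, ∃ m, ∀ c, SS m c → lc w c ∈ U → ∀ j, e ∣ c j := by
  have hV : GF V := hVn ▸ GF.seq h0 fun n => ⟨n + 1, h1 n⟩
  have hb : V.HasAntitoneBasis Vn := hVn ▸ .iInf_principal
    (antitone_nat_of_succ_le fun n x hx => by simpa using h1 n x hx 0 (h0 _))
  choose! Q q1 q2 using fun e (h : Tight N V e) => h
  choose! Q' q3 q4 using fun e (h : Tight N V e) => (hN.pl (hV.sm e)).half (q1 e h)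
  have : Inhabited G := ⟨0⟩
  obtain ⟨w, hw⟩ := Lib.helper23.trans_rec (W := ℕ) (S := G) (fun n w x =>
    (∀ b ∈ Icc (-4 ^ n : ℤ) (4 ^ n), b • x ∈ Vn (n + 1)) ∧
      ∀ i ∈ {i ∈ Icc (-n : ℤ) n ×ˢ Icc (-n : ℤ) n | Tight N V i.1 ∧ ¬ i.1 ∣ i.2},
        ∀ c ∈ {c : FF | ∀ j, |c j| ≤ j ∧ (n ≤ j → c j = 0)}, i.2 • x - lc w c ∉ Q' i.1)
    (fun n w w' x h h' => ⟨h'.1, fun i hi c hc => by
      rw [show lc w' c = lc w c from Finsupp.sum_congr fun j hj => by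
        simp only [h j (not_le.1 (mt (hc j).2 (Finsupp.mem_support_iff.1 hj)))]]
      exact h'.2 i hi c hc⟩) fun n w _ => by
      have hs := ((finite_Icc (-n : ℤ) n).prod (finite_Icc (-n : ℤ) n)).sep
        fun i => Tight N V i.1 ∧ ¬ i.1 ∣ i.2
      obtain ⟨W, w1, w2⟩ := generic hV Prod.snd (fun i => Q i.1) (fun i => Q' i.1) _ hs
        fun i hi => ⟨mt (q2 _ hi.2.1 _) hi.2.2, q4 _ hi.2.1⟩
      exact (((eventually_all_finite (finite_Icc _ _)).2 fun b _ =>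
        w1 (hV.zs b (hb.mem (n + 1)))).and ((eventually_all_finite hs).2 fun i hi =>
          (eventually_all_finite (box n)).2 fun c _ => w2 i hi _)).exists
  have hS (k : ℕ) : ∀ n c, Om n c → (∀ j ≥ n + k, c j = 0) → lc w c ∈ Vn n := by
    induction k with
    | zero =>
      intro n c h h'
      rw [show c = 0 from Finsupp.ext fun j => (lt_or_ge j n).elim (h j).2 (h' j), map_zero]
      exact h0 n
    | succ k ih =>
      intro n c h h'
      have := h1 n _ (ih (n + 1) (c.erase n) (fun j => ?_) fun j hj => ?_) _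
        ((hw n).1 (-c n) (abs_le.1 (by simpa using (h n).1)))
      · rwa [neg_smul, sub_neg_eq_add, ← Finsupp.linearCombination_single, ← map_add,
          Finsupp.erase_add_single] at this
      · rw [Finsupp.erase_apply]
        split_ifs with hj
        exacts [by simp, ⟨(h j).1, fun h2 => (h j).2 (by omega)⟩]
      · rw [Finsupp.erase_ne (by omega), h' j (by omega)]
  have hS' (A) (hA : A ∈ V) : ∃ n, ∀ c, Om n c → lc w c ∈ A := by
    obtain ⟨n, hn⟩ := hb.mem_iff.1 hA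
    exact ⟨n, fun c hc => (bdd c).elim fun k hk => hn (hS k n c hc fun j hj => hk j (by omega))⟩
  refine ⟨w, hS', fun e he => ?_⟩
  obtain ⟨U, u1, B, u2, u3⟩ := mem_pl.1 (q3 e he)
  obtain ⟨n, hn⟩ := hS' _ u2
  refine ⟨U, u1, n + e.natAbs + 1, fun c hc hU => by_contra fun h => ?_⟩
  have hc' := hc.sm (Nat.lt_succ_self _)
  obtain ⟨j, j1, j2⟩ := Set.exists_max_image {j | ¬ e ∣ c j} id (c.support.finite_toSet.subset
    fun j hj => Finsupp.mem_support_iff.2 fun h => hj (h ▸ dvd_zero e)) (not_forall.1 h)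
  have j3 : n + e.natAbs ≤ j := not_lt.1 fun h => j1 ((hc' j).2 h ▸ dvd_zero e)
  let d : FF := (c.filter (j < ·)).mapRange (fun v => -(v / e)) (by simp)
  refine (hw j).2 (e, c j) ⟨⟨show e ∈ Icc _ _ from ⟨by omega, by omega⟩, abs_le.1 (hc' j).1⟩, he, j1⟩
    (-c.filter (· < j)) (fun i => ?_) ?_
  · rw [Finsupp.neg_apply, Finsupp.filter_apply]
    split_ifs with hi
    exacts [⟨by simpa using (hc' i).1, fun h => by omega⟩, by simp]
  · convert u3 _ hU _ (hn d fun i => ?_) using 1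
    · dsimp only
      rw [← Finsupp.linearCombination_single, ← map_sub, ← map_zsmul, ← map_add]
      congr 1
      ext i
      simp only [d, Finsupp.single_apply, Finsupp.filter_apply, Finsupp.mapRange_apply,
        Finsupp.sub_apply, Finsupp.neg_apply, Finsupp.add_apply, Finsupp.smul_apply, smul_eq_mul]
      rcases lt_trichotomy i j with h | rfl | h
      · simp [h, h.ne', h.not_gt]
      · simp
      · simp [h, h.ne, h.not_gt, Int.mul_ediv_cancel' (by_contra fun h' => (j2 i h').not_gt h)]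
    · simp only [d, Finsupp.filter_apply, Finsupp.mapRange_apply, abs_neg]
      split_ifs with hi
      · exact ⟨((Int.abs_ediv_le_abs _ _).trans (hc' i).1).trans (le_four i),
          fun h => by omega⟩
      · simp

end Pool.Agent.H.MP_417230_al
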