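import Pool.Agent.H.MP_417230_al.A
import Pool.Agent.Lib.helper23.PW

namespace Pool.Agent.H.MP_417230_al

open Filter Topology Set

abbrev T := UnitAddCircle

lemma rep (x : T) : ∃ r : ℝ, (r : T) = x ∧ |r| = ‖x‖ := by
  induction x using QuotientAddGroup.induction_on with
  | H r => exact ⟨r - round r, by simp, UnitAddCircle.norm_eq.symm⟩

lemma half (x : T) : ∃ y, y + y = x ∧ ‖y‖ ≤ ‖x‖ / 2 := by
  obtain ⟨r, rfl, h⟩ := rep x
  refine ⟨(r / 2 : ℝ), by rw [← AddCircle.coe_add, add_halves], ?_⟩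
  rw [← h, ← abs_two (α := ℝ), ← abs_div, abs_two]
  exact QuotientAddGroup.norm_mk_le_norm

lemma dbl {x : T} (hx : ‖x‖ ≤ 1 / 4) : 2 * ‖x‖ = ‖x + x‖ := by
  obtain ⟨r, rfl, h⟩ := rep x
  have : |r + r| = 2 * |r| := by rw [← two_mul, abs_mul, abs_two]
  rw [← AddCircle.coe_add, (AddCircle.norm_coe_eq_abs_iff 1 one_ne_zero (x := r + r)).2, ← h, this]
  rw [this, abs_one]
  linarith

lemma slope {δ : ℝ} (h0 : 0 ≤ δ) (L : ℕ) : ∀ a : ℕ → T, (∀ i < L, ‖a (i + 1) - a i - a i‖ ≤ δ) →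
    ∃ t : T, ∀ i ≤ L, ‖a i - (2 ^ i : ℤ) • t‖ ≤ δ := by
  induction L with
  | zero => exact fun a _ => ⟨a 0, by simpa⟩
  | succ L ih =>
    intro a h
    obtain ⟨t, ht⟩ := ih (fun i => a (i + 1)) fun i hi => h _ (by omega)
    obtain ⟨y, h1, h2⟩ := half (a 0 + a 0 - t)
    refine ⟨a 0 - y, fun i hi => ?_⟩
    rcases i with _ | i
    · have a1 := norm_sub_le (a 1 - t) (a 1 - a 0 - a 0)
      have a2 : ‖a 1 - t‖ ≤ δ := by simpa using ht 0 (Nat.zero_le _)
      rw [show a 1 - t - (a 1 - a 0 - a 0) = a 0 + a 0 - t by abel] at a1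
      simp only [pow_zero, one_smul, sub_sub_cancel]
      linarith [h 0 (by omega)]
    · rw [pow_succ, mul_smul, two_smul, sub_add_sub_comm, h1, sub_sub_cancel]
      exact ht i (by omega)

lemma Om.neg {n : ℕ} {c : FF} (h : Om n c) : Om n (-c) := fun j => by simpa using h j

lemma omS {n j i m : ℕ} (hj : n ≤ j) (h : i + m ≤ 2 * j) :
    Om n (Finsupp.single j (2 ^ i * m)) := fun k => by
  rw [Finsupp.single_apply]
  split_ifs with hk
  · subst hk
    refine ⟨?_, fun h => by omega⟩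
    have : 2 ^ i * m ≤ 4 ^ j := calc
      _ ≤ 2 ^ i * 2 ^ m := Nat.mul_le_mul_left _ Nat.lt_two_pow_self.le
      _ ≤ 2 ^ (2 * j) := by rw [← pow_add]; exact Nat.pow_le_pow_right two_pos h
      _ = _ := pow_mul 2 2 j
    rw [abs_of_nonneg (by positivity)]
    exact_mod_cast this
  · simp

lemma omC {n r i : ℕ} {c : FF} (hi : i ≤ r) (hn : n ≤ r) (h : Sm r c) :
    Om n ((2 ^ i : ℤ) • c) := fun j => by
  rw [Finsupp.smul_apply, smul_eq_mul]
  by_cases hj : j < r
  · simp [(h j).2 hj]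
  refine ⟨?_, fun h => by omega⟩
  have h1 : (j : ℤ) ≤ 2 ^ j := by exact_mod_cast Nat.lt_two_pow_self.le
  rw [abs_mul, abs_of_nonneg (by positivity), show (4 : ℤ) = 2 * 2 by norm_num, mul_pow]
  exact mul_le_mul (pow_le_pow_right₀ one_le_two (by omega)) ((h j).1.trans h1) (abs_nonneg _)
    (by positivity)

theorem hyers {θ : FF → T} {δ : ℝ} (h0 : 0 ≤ δ) (h1 : δ ≤ 1 / 100) {n : ℕ}
    (h : ∀ x y, Om n x → Om n y → Om n (x + y) → ‖θ (x + y) - θ x - θ y‖ ≤ δ) :
    ∃ t : ℕ → T, ∀ c, Sm n c → ‖θ c - lc t c‖ ≤ 17 * δ := by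
  choose! t ht using fun j (hj : n ≤ j) => slope h0 (2 * j)
    (fun i => θ (Finsupp.single j (2 ^ i))) fun i hi => by
      have a1 : Om n (Finsupp.single j (2 ^ i)) := by simpa using omS (i := i) (m := 1) hj hi
      have a2 := omS (i := i) (m := 2) hj
      have e : Finsupp.single j ((2 : ℤ) ^ (i + 1)) =
        Finsupp.single j (2 ^ i) + Finsupp.single j (2 ^ i) := by
        rw [← Finsupp.single_add, pow_succ, mul_two]
      rw [e]
      refine h _ _ a1 a1 (e ▸ fun k => ?_)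
      rw [Finsupp.single_apply]
      split_ifs with hk
      · subst hk
        refine ⟨?_, fun h => by omega⟩
        rw [abs_of_nonneg (by positivity), show (4 : ℤ) = 2 ^ 2 by norm_num, ← pow_mul]
        exact pow_le_pow_right₀ one_le_two hi
      · simp
  refine ⟨t, ?_⟩
  obtain ⟨D, hD⟩ : ∃ D : FF → T, ∀ c, θ c - lc t c = D c := ⟨_, fun _ => rfl⟩
  have ha (x y) (a1 : Om n x) (a2 : Om n y) (a3 : Om n (x + y)) : ‖D (x + y) - D x - D y‖ ≤ δ := by
    convert h x y a1 a2 a3 using 2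
    simp only [← hD, map_add]
    abel
  have o0 : Om n 0 := fun j => by simp
  have d0 : ‖D 0‖ ≤ δ := by simpa using ha 0 0 o0 o0 (by simpa using o0)
  have step {a y : FF} {C τ : ℝ} (a1 : Om n a) (a2 : Om n y) (a3 : Om n (a + y))
      (a4 : Om n (y + y)) (b1 : ‖D a‖ ≤ τ) (b2 : ‖D y‖ ≤ C) (b3 : ‖D (y + y)‖ ≤ C)
      (b4 : C ≤ 1 / 4) : ‖D (a + y)‖ ≤ τ + δ + (C + δ) / 2 := by
    have c1 := norm_sub_le (D (y + y)) (D (y + y) - D y - D y)
    have c2 := norm_add₃_le (a := D (a + y) - D a - D y) (b := D a) (c := D y)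
    rw [show D (y + y) - (D (y + y) - D y - D y) = D y + D y by abel, ← dbl (b2.trans b4)] at c1
    rw [show D (a + y) - D a - D y + D a + D y = D (a + y) by abel] at c2
    linarith [ha _ _ a1 a2 a3, ha _ _ a2 a2 a4]
  have s1 (j) (hj : n ≤ j) (m : ℕ) : ∀ i, i + m ≤ 2 * j →
      ‖D (Finsupp.single j (2 ^ i * m))‖ ≤ 5 * δ := by
    induction m with
    | zero => exact fun i _ => by simpa using d0.trans (by linarith)
    | succ m ih =>
      intro i hi
      have e1 : Finsupp.single j ((2 : ℤ) ^ i * (m + 1 : ℕ)) =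
          Finsupp.single j ((2 : ℤ) ^ i * (1 : ℕ)) + Finsupp.single j ((2 : ℤ) ^ i * m) := by
        rw [← Finsupp.single_add]; congr 1; push_cast; ring
      have e2 : Finsupp.single j ((2 : ℤ) ^ (i + 1) * m) =
          Finsupp.single j ((2 : ℤ) ^ i * m) + Finsupp.single j ((2 : ℤ) ^ i * m) := by
        rw [← Finsupp.single_add]; congr 1; ring
      have := step (τ := δ) (omS hj (by omega)) (omS hj (by omega)) (e1 ▸ omS hj hi)
        (e2 ▸ omS hj (by omega)) (by simpa [← hD] using ht j hj i (by omega)) (ih i (by omega))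
        (e2 ▸ ih (i + 1) (by omega)) (by linarith)
      rw [e1]
      exact this.trans (by linarith)
  have s2 (j) (hj : n ≤ j) (v : ℤ) (i) (hi : i + v.natAbs ≤ 2 * j) :
      Om n (Finsupp.single j (2 ^ i * v)) ∧ ‖D (Finsupp.single j (2 ^ i * v))‖ ≤ 7 * δ := by
    obtain ⟨m, rfl | rfl⟩ := v.eq_nat_or_neg
    · exact ⟨omS hj (by omega), by linarith [s1 j hj m i (by omega)]⟩
    have a1 := omS (i := i) (m := m) hj (by omega)
    have a2 := s1 j hj m i (by omega)
    rw [mul_neg, Finsupp.single_neg]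
    generalize Finsupp.single j ((2 : ℤ) ^ i * m) = x at a1 a2
    have a3 := ha x (-x) a1 a1.neg (by simpa using o0)
    have a4 := norm_sub_le (D 0 - D x) (D 0 - D x - D (-x))
    rw [add_neg_cancel] at a3
    rw [sub_sub_cancel] at a4
    exact ⟨a1.neg, by linarith [norm_sub_le (D 0) (D x)]⟩
  have s3 (k : ℕ) : ∀ r i c, i ≤ r → n ≤ r → Sm r c → (∀ j ≥ r + k, c j = 0) →
      ‖D ((2 ^ i : ℤ) • c)‖ ≤ 17 * δ := by
    induction k with
    | zero =>
      intro r i c _ _ h h'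
      rw [show c = 0 from Finsupp.ext fun j => (lt_or_ge j r).elim (h j).2 (h' j), smul_zero]
      linarith
    | succ k ih =>
      intro r i c hi hr h h'
      have a1 : Sm (r + 1) (c.erase r) := fun j => by
        rw [Finsupp.erase_apply]
        split_ifs with hj
        exacts [by simp, ⟨(h j).1, fun h2 => (h j).2 (by omega)⟩]
      have a2 : ∀ j ≥ r + 1 + k, c.erase r j = 0 := fun j hj => by
        rw [Finsupp.erase_ne (by omega), h' j (by omega)]
      have e1 : (2 ^ i : ℤ) • c = Finsupp.single r (2 ^ i * c r) + (2 ^ i : ℤ) • c.erase r := by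
        rw [← smul_eq_mul, ← Finsupp.smul_single, ← smul_add, Finsupp.single_add_erase]
      have e2 : (2 ^ (i + 1) : ℤ) • c.erase r =
          (2 ^ i : ℤ) • c.erase r + (2 ^ i : ℤ) • c.erase r := by
        rw [← add_smul, pow_succ, mul_two]
      obtain ⟨a3, a4⟩ := s2 r hr (c r) i (by have := abs_le.1 (h r).1; omega)
      have := step a3 (omC (by omega) (by omega) a1) (e1 ▸ omC hi hr h)
        (e2 ▸ omC (by omega) (by omega) a1) a4 (ih _ i _ (by omega) (by omega) a1 a2)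
        (e2 ▸ ih _ (i + 1) _ (by omega) (by omega) a1 a2) (by linarith)
      rw [e1]
      linarith
  intro c hc
  obtain ⟨k, hk⟩ := bdd c
  simpa [hD] using s3 k n 0 c (Nat.zero_le _) le_rfl hc fun j hj => hk j (by omega)

noncomputable def ev : FF →+ ((ℕ → T) → T) := AddMonoidHom.pi fun t => (lc t).toAddMonoidHom

noncomputable def BB : Filter FF := comap ev (𝓝 0)

lemma BB_small (t : ℕ → T) {ε : ℝ} (h : 0 < ε) : ∀ᶠ c in BB, ‖lc t c‖ < ε := by
  have : ∀ᶠ f : (ℕ → T) → T in 𝓝 0, ‖f t‖ < ε :=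
    ((continuous_apply t).norm.tendsto' 0 0 (by simp)).eventually (gt_mem_nhds h)
  exact (tendsto_comap (f := ev)).eventually this

theorem folner {G : Type} [AddCommGroup G] [TopologicalSpace G] [IsTopologicalAddGroup G]
    [T2Space G] {K : AddSubgroup G} (hK : IsCompact (K : Set G)) {U : Set G} (hU : U ∈ 𝓝 0) :
    ∃ U' ∈ 𝓝 (0 : G), ∀ (w : ℕ → G) (e : ℤ) (n : ℕ),
      (∀ c, Om n c → ∃ k ∈ K, e • lc w c - k ∈ U') →
      ∀ᶠ c in BB, Sm n c → (∀ j, e ∣ c j) → lc w c ∈ U := by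
  have : CompactSpace K := isCompact_iff_compactSpace.1 hK
  obtain ⟨U₁, u1, u2⟩ := GF.nhds.hadd hU
  let Φ : K → {χ : K →+ T // Continuous χ} → T := fun k χ => χ.1 k
  have hΦ : IsInducing Φ := ((continuous_pi fun χ => χ.2).isClosedEmbedding fun x y h =>
    sub_eq_zero.1 (by_contra fun hn => by
      obtain ⟨χ, h1, h2⟩ := Lib.helper23.PW.cpt hn
      exact h2 (by rw [map_sub, sub_eq_zero]; exact congrFun h ⟨χ, h1⟩))).isInducing
  obtain ⟨O, o1, o2⟩ := mem_comap.1 (hΦ.nhds_eq_comap 0 ▸ continuous_subtype_val.tendsto 0 u1)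
  rw [nhds_pi, Filter.mem_pi] at o1
  obtain ⟨I, i1, t, i2, i3⟩ := o1
  obtain ⟨ε, e1, e2, e3⟩ : ∃ ε : ℝ, (∀ χ ∈ I, Metric.closedBall 0 ε ⊆ t χ) ∧ ε < 1 ∧ 0 < ε :=
    ((((eventually_all_finite i1).2 fun χ _ => eventually_closedBall_subset
      (by simpa [Φ] using i2 χ)).filter_mono nhdsWithin_le_nhds).and
      (((gt_mem_nhds one_pos).filter_mono nhdsWithin_le_nhds).and
        (self_mem_nhdsWithin (s := Ioi 0)))).exists
  obtain ⟨O₁, o3, o4⟩ := (mem_nhds_subtype _ (0 : K) _).1 ((eventually_all_finite i1).2 fun χ _ =>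
    (χ.2.norm.tendsto' 0 0 (by simp)).eventually (ge_mem_nhds (by positivity : 0 < ε / 100)))
  obtain ⟨O₂, o5, o6⟩ := GF.nhds.half o3
  obtain ⟨O₃, o7, o8⟩ := GF.nhds.hadd o5
  refine ⟨O₃ ∩ O₂ ∩ U₁, inter_mem (inter_mem o7 o5) u1, fun w e n h => ?_⟩
  rcases eq_or_ne e 0 with rfl | he
  · exact Eventually.of_forall fun c _ hc => by
      rw [show c = 0 from Finsupp.ext fun j => zero_dvd_iff.1 (hc j), map_zero]
      exact mem_of_mem_nhds hU
  have : ∀ c, ∃ k : K, Om n c → e • lc w c - k ∈ O₃ ∩ O₂ ∩ U₁ := fun c => by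
    by_cases hc : Om n c
    exacts [(h c hc).elim fun k hk => ⟨⟨k, hk.1⟩, fun _ => hk.2⟩, ⟨0, fun h => (hc h).elim⟩]
  choose κ hκ using this
  choose! s hs using fun χ (hχ : χ ∈ I) => hyers (θ := fun c => χ.1 (κ c)) (n := n)
    (by positivity : 0 ≤ ε / 100) (by linarith) fun x y a1 a2 a3 => by
      rw [← map_sub, ← map_sub]
      refine o4 (a := κ (x + y) - κ x - κ y) ?_ χ hχ
      convert o6 _ (o8 _ (hκ x a1).1.1 _ (hκ y a2).1.1) _ (hκ _ a3).1.2 using 1
      simp only [map_add, smul_add, mem_preimage, AddSubgroupClass.coe_sub]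
      congr! 1
      abel
  filter_upwards [(eventually_all_finite i1).2 fun χ _ =>
    BB_small (fun j => DivisibleBy.div (s χ j) e) (half_pos e3)] with c h1 h2 h3
  let d : FF := c.mapRange (· / e) (by simp)
  have d1 : c = e • d := Finsupp.ext fun j => (Int.mul_ediv_cancel' (h3 j)).symm
  have d2 : Sm n d := fun j => ⟨(Int.abs_ediv_le_abs _ _).trans (h2 j).1, fun hj => by
    simp [d, (h2 j).2 hj]⟩
  have d3 := hκ d fun j => ⟨(d2 j).1.trans (le_four j), (d2 j).2⟩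
  have d4 : (κ d : G) ∈ U₁ := o2 (i3 fun χ hχ => e1 χ hχ (mem_closedBall_zero_iff.2 (by
    have a1 := h1 χ hχ
    rw [d1, map_smul, show e • lc (fun j => DivisibleBy.div (s χ j) e) d = lc (s χ) d by
      simp only [Finsupp.linearCombination_apply, Finsupp.smul_sum, smul_comm e,
        DivisibleBy.div_cancel _ he]] at a1
    linarith [norm_sub_norm_le (χ.1 (κ d)) (lc (s χ) d), hs χ hχ d d2])))
  simpa [← map_smul, ← d1] using u2 _ d3.2 _ d4

end Pool.Agent.H.MP_417230_al
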