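import Pool.Agent.H.MP_417230_al.B

namespace Pool.Agent.H.MP_417230_al

open Filter Topology Set

variable {G : Type} [AddCommGroup G]

lemma ofFilter {F : Filter G} (h : GF F) :
    ∃ σ : TopologicalSpace G, @IsTopologicalAddGroup G σ _ ∧ @nhds G σ 0 = F := by
  let B : AddGroupFilterBasis G :=
    { sets := F.sets
      nonempty := ⟨univ, univ_mem⟩
      inter_sets := fun hx hy => ⟨_, inter_mem hx hy, subset_rfl⟩
      zero' := fun hU => h.zero hU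
      add' := fun hU => (h.hadd hU).imp fun V hV => ⟨hV.1, by
        rintro _ ⟨x, hx, y, hy, rfl⟩
        exact hV.2 x hx y hy⟩
      neg' := fun hU => ⟨_, h.zs (-1) hU, fun x hx => by simpa using hx⟩
      conj' := fun g U hU => ⟨U, hU, by simp⟩ }
  exact ⟨B.topology, B.isTopologicalAddGroup, Filter.ext fun U => B.nhds_zero_hasBasis.mem_iff.trans
    ⟨fun ⟨_, h, h'⟩ => mem_of_superset h h', fun h => ⟨U, h, subset_rfl⟩⟩⟩

section

variable [τ : TopologicalSpace G] [IsTopologicalAddGroup G]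

lemma near (g : G) {U : Set G} (hU : U ∈ 𝓝 0) : {x | x - g ∈ U} ∈ 𝓝 g :=
  (continuous_sub_right g).tendsto' g 0 (sub_self g) hU

theorem lm_le {V : Set G} (hL : ∀ σ : TopologicalSpace G, @IsTopologicalAddGroup G σ _ →
    @T2Space G σ → τ ≤ σ → V ∈ @nhds G σ 0 → σ = τ) (hV : V ∈ 𝓝 0) :
    ∃ W ∈ 𝓝 (0 : G), ∀ P, GF P → (∀ g, ClusterPt g P → g = 0) → W ∈ P → P ≤ 𝓝 0 := by
  obtain ⟨W, w1, w2⟩ := GF.nhds.hadd hV
  refine ⟨W, w1, fun P hP hc hW => ?_⟩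
  have sep (x : G) (hx : x ≠ 0) : ∃ U ∈ pl (𝓝 0) P, x ∉ U := by
    obtain ⟨M, m1, Q, q1, h⟩ : ∃ M ∈ 𝓝 x, ∃ Q ∈ P, M ∩ Q = ∅ := by
      by_contra! h
      exact hx (hc x (clusterPt_iff_nonempty.2 fun W w Q q => h W w Q q))
    refine ⟨{x}ᶜ, mem_pl.2 ⟨_, mem_map.1 ((continuous_sub_left x).tendsto' 0 x (sub_zero x) m1),
      Q, q1, fun u hu b hb e => h.le ⟨?_, hb⟩⟩, by simp⟩
    rwa [mem_preimage, ← eq_sub_of_add_eq' e] at hu
  obtain ⟨σ, s1, s2⟩ := ofFilter (GF.nhds.pl hP)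
  obtain rfl := hL σ s1 (@IsTopologicalAddGroup.t2Space_of_zero_sep G σ _ s1 (s2 ▸ sep))
    (continuous_id_iff_le.1 (@continuous_of_tendsto_nhds_zero G τ _ _ G (G →+ G) _ σ
      s1.toContinuousAdd _ _ (AddMonoidHom.id G) (s2 ▸ le_pl hP)))
    (s2 ▸ mem_pl.2 ⟨W, w1, W, hW, w2⟩)
  exact s2 ▸ le_pl' GF.nhds

end

noncomputable def TT : Filter FF := ⨅ m, 𝓟 {c | SS m c}

lemma TT_mem (m : ℕ) : ∀ᶠ c in TT, SS m c := mem_iInf_of_mem m (mem_principal_self _)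

lemma gf_TB : GF (TT ⊓ BB) :=
  (GF.seq (fun _ _ => by simp) fun m => ⟨2 * m, fun _ h _ h' => SS.sub h h'⟩).inf
    (GF.nhds.comap ev)

lemma freq_one : ∃ᶠ c in TT ⊓ BB, ∃ j, c j = 1 := by
  intro h
  obtain ⟨A, h1, B, ⟨O, h2, h3⟩, h4⟩ := mem_inf_iff_superset.1 h
  obtain ⟨m, hm⟩ := (HasAntitoneBasis.iInf_principal (s := fun m => {c | SS m c})
    fun _ _ h _ hc => SS.mono hc h).mem_iff.1 h1
  obtain ⟨O', h5, h6⟩ := GF.nhds.half h2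
  obtain ⟨p, hp⟩ := exists_clusterPt_of_compactSpace
    (map (fun n => ev (Finsupp.single n 1)) atTop)
  have := mapClusterPt_iff_frequently.1 hp _ (near p h5)
  obtain ⟨n, a1, a2⟩ := frequently_atTop.1 this m
  obtain ⟨k, a3, a4⟩ := frequently_atTop.1 this (n + 1)
  refine h4 (a := Finsupp.single n 1 - Finsupp.single k 1) ⟨hm fun j => ?_, h3 ?_⟩
    ⟨n, by simp [show k ≠ n by omega]⟩
  · simp only [Finsupp.sub_apply, Finsupp.single_apply]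
    split_ifs <;> simp <;> omega
  · simpa using h6 _ a2 _ a4

variable [UniformSpace G] [IsUniformAddGroup G] [CompleteSpace G]

theorem cluster {Q : Filter G} (hQ : GF Q) (h : ∀ U ∈ 𝓝 (0 : G), Cov Q 1 U) :
    ∃ K : AddSubgroup G, IsCompact (K : Set G) ∧ (∀ g ∈ K, ClusterPt g Q) ∧
      ∀ U ∈ 𝓝 (0 : G), ∀ᶠ x in Q, ∃ k ∈ K, x - k ∈ U := by
  have tb : Q.TotallyBounded := fun d hd => by
    obtain ⟨U, hU, hd⟩ := mem_comap.1 (uniformity_eq_comap_nhds_zero_swapped G ▸ hd)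
    obtain ⟨Φ, h1, h2⟩ := h U hU
    exact ⟨Φ, h1, h2.mono fun x ⟨f, a1, a2⟩ => ⟨f, a1, hd (by simpa using a2)⟩⟩
  refine ⟨AddSubgroup.ofSub {g | ClusterPt g Q} ⟨0, ClusterPt.mono (f := pure 0)
    (ClusterPt.of_le_nhds (pure_le_nhds _)) hQ.zero⟩ fun x hx y hy => ?_,
    tb.isCompact_setOfPred_clusterPt, fun _ h => h, fun U hU => by_contra fun hn => ?_⟩
  · refine clusterPt_iff_forall_mem_closure.2 fun A hA => ?_
    obtain ⟨B, h1, h2⟩ := hQ.half hA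
    simpa [sub_eq_add_neg] using map_mem_closure₂ continuous_sub (hx.mem_closure_of_mem _ h1)
      (hy.mem_closure_of_mem _ h1) h2
  · have : (Q ⊓ 𝓟 _).NeBot := frequently_iff_neBot.1 (not_eventually.1 hn)
    obtain ⟨g, hg⟩ := @Filter.TotallyBounded.exists_clusterPt _ _ _ _ this (tb.mono inf_le_left)
    obtain ⟨x, h1, h2⟩ := clusterPt_iff_nonempty.1 hg (near g hU)
      (mem_inf_of_right (mem_principal_self _))
    exact h2 ⟨g, hg.mono inf_le_left, h1⟩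

theorem main [T2Space G] {W : Set G} (hW : W ∈ 𝓝 0)
    (hL : ∀ P, GF P → (∀ g, ClusterPt g P → g = 0) → W ∈ P → P ≤ 𝓝 0) {K : AddSubgroup G}
    (hK : IsCompact (K : Set G)) : ∃ W' ∈ 𝓝 (0 : G), ∀ P, GF P →
      (∀ᶠ x in P, ∃ k ∈ K, x - k ∈ W') → ∀ U ∈ 𝓝 (0 : G), Cov P 1 U := by
  obtain ⟨W', w1, w2⟩ := folner hK hW
  refine ⟨W', w1, fun P hP hA U hU => ?_⟩
  obtain ⟨Vn, v0, v1, v2⟩ := hP.chain hA
  obtain ⟨V, hV⟩ : ∃ V, V = ⨅ n, 𝓟 (Vn n) := ⟨_, rfl⟩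
  have v3 (n) : 0 ∈ Vn n := hP.zero (v1 n)
  have gV : GF V := hV ▸ GF.seq v3 fun n => ⟨n + 1, v2 n⟩
  suffices Cov V 1 U from this.imp fun Φ h => ⟨h.1, h.2.filter_mono
    (hV ▸ le_iInf fun n => le_principal_iff.2 (v1 n))⟩
  obtain ⟨w, hS, hR⟩ := exists_seq GF.nhds v3 v2 hV
  have : Nonempty {e // Tight (𝓝 0) V e} := ⟨1, univ, univ_mem, fun b _ => one_dvd b⟩
  obtain ⟨C, c1, -, c2⟩ := cluster (GF.iInf fun e : {e // Tight (𝓝 0) V e} => gV.sm e) fun O hO => by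
    obtain ⟨e, h1, Φ, h2, h3⟩ := exists_tight GF.nhds gV hO
    exact ⟨Φ, h2, mem_iInf_of_mem ⟨e, h1⟩ (mem_map.2 (h3.mono fun x hx => by simpa using hx))⟩
  have key := hL _ (gf_TB.map (lc w).toAddMonoidHom) (fun g hg => ?_) ?_
  · obtain ⟨e, h1, h2⟩ := exists_tight GF.nhds gV hU
    obtain ⟨O, h3, m, h4⟩ := hR e h1
    obtain ⟨c, ⟨j, h5⟩, h6, h7⟩ := (freq_one.and_eventually
      (((TT_mem m).filter_mono inf_le_left).and (key h3))).exists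
    obtain ⟨q, hq⟩ := h5 ▸ h4 c h6 h7 j
    exact hq ▸ h2.mul gV q
  · refine eq_of_nhds_neBot (clusterPt_iff_forall_mem_closure.2 fun O hO => ?_)
    obtain ⟨O', h1, h2⟩ := folner c1 hO
    obtain ⟨⟨e, he⟩, h3⟩ := (mem_iInf_of_directed (fun e e' => ⟨⟨_, e.2.lcm gV e'.2⟩,
      sm_le gV (dvd_lcm_left _ _), sm_le gV (dvd_lcm_right _ _)⟩) _).1 (c2 O' h1)
    obtain ⟨n, hn⟩ := hS _ h3
    obtain ⟨E, h4, m, h5⟩ := hR e he
    obtain ⟨E', h6, h7⟩ := GF.nhds.half h4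
    have a (M) (hM : M ∈ 𝓝 g) (D) (hD : D ∈ TT ⊓ BB) : ∃ c ∈ D, lc w c ∈ M := by
      obtain ⟨_, a1, c, a2, rfl⟩ := clusterPt_iff_nonempty.1 hg hM (image_mem_map hD)
      exact ⟨c, a2, a1⟩
    refine mem_closure_iff_nhds.2 fun M hM => ?_
    obtain ⟨c, ⟨⟨a1, a2⟩, a3⟩, a4, a5⟩ := a _ (inter_mem hM (near g h6)) _
      (inter_mem_inf ((TT_mem (2 * m)).and (TT_mem (n + 1))) (h2 w e n hn))
    obtain ⟨k, hk⟩ := bdd c
    obtain ⟨d, ⟨b1, b2⟩, b3⟩ := a _ (near g h6) _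
      (mem_inf_of_left ((TT_mem (2 * m)).and (TT_mem k)))
    refine ⟨_, a4, a3 (a2.sm (Nat.lt_succ_self n)) fun j => ?_⟩
    rcases lt_or_ge j k with hj | hj
    · simpa [b2.zero hj] using h5 _ (a1.sub b1) (by simpa using h7 _ a5 _ b3) j
    · simp [hk j hj]
  · obtain ⟨n, hn⟩ := hS (Vn 0) (hV ▸ mem_iInf_of_mem 0 (mem_principal_self _))
    exact (((TT_mem (n + 1)).filter_mono inf_le_left).and ((w2 w 1 n fun c hc => by
      simpa [v0] using hn c hc).filter_mono inf_le_right)).mono fun c h =>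
        h.2 (h.1.sm (Nat.lt_succ_self n)) fun _ => one_dvd _

end Pool.Agent.H.MP_417230_al
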